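import Pool.Agent.U798.BV.Spec

/-!
# Functions of bounded variation as integrals of sawtooth translates (project BV, package REP)
-/

set_option autoImplicit false

open MeasureTheory Filter Topology

namespace Pool.Agent.U139.BV

open Pool.Agent.U798.BV

theorem sw_meas : Measurable sw := by
  unfold sw
  exact measurable_fract.sub_const _

theorem sw_bdd (t : ℝ) : |sw t| ≤ 1 / 2 := by
  unfold sw
  have h1 := Int.fract_nonneg t
  have h2 := Int.fract_lt_one t
  rw [abs_le]
  constructor <;> linarith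

theorem sw_eq {x t : ℝ} (hx : 0 ≤ x) (hx1 : x < 1) (ht : 0 ≤ t) (ht1 : t ≤ 1) :
    (Set.Iic x).indicator (fun _ => (1 : ℝ)) t = x + 1 / 2 - t - sw (x - t) := by
  unfold sw
  by_cases h : t ≤ x
  · rw [Set.indicator_of_mem (Set.mem_Iic.2 h), Int.fract_eq_self.2 ⟨by linarith, by linarith⟩]
    ring
  · have h' : x < t := not_le.1 h
    rw [Set.indicator_of_notMem (fun hh => h (Set.mem_Iic.1 hh))]
    have h1 : Int.fract (x - t) = x - t + 1 := by
      have h2 : Int.fract (x - t) = Int.fract (x - t + 1) := (Int.fract_add_one _).symm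
      rw [h2, Int.fract_eq_self.2 ⟨by linarith, by linarith⟩]
    rw [h1]
    ring

theorem mono_rep (p : ℝ → ℝ) (hp : MonotoneOn p (Set.Icc 0 1)) :
    ∃ (θ : Measure ℝ) (m : ℝ) (N : Set ℝ), IsFiniteMeasure θ ∧ N.Countable ∧
      ∀ x, x ∉ N → 0 ≤ x → x < 1 →
        p x = p 0 + (x + 1 / 2) * (p 1 - p 0) - m - ∫ t, sw (x - t) ∂θ := by
  obtain ⟨U, hU⟩ : ∃ U : ℝ → ℝ, U = fun x => p (max 0 (min 1 x)) := ⟨_, rfl⟩
  have hmono : Monotone U := by
    intro a b hab
    rw [hU]
    refine hp ⟨le_max_left _ _, max_le zero_le_one (min_le_left _ _)⟩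
      ⟨le_max_left _ _, max_le zero_le_one (min_le_left _ _)⟩ ?_
    exact max_le_max le_rfl (min_le_min le_rfl hab)
  have hU0 : ∀ x, x ≤ 0 → U x = p 0 := by
    intro x hx
    rw [hU]
    simp only
    rw [max_eq_left ((min_le_right _ _).trans hx)]
  have hU1 : ∀ x, 1 ≤ x → U x = p 1 := by
    intro x hx
    rw [hU]
    simp only
    rw [min_eq_left hx, max_eq_right zero_le_one]
  have hUx : ∀ x, 0 ≤ x → x ≤ 1 → U x = p x := by
    intro x h0 h1
    rw [hU]
    simp only
    rw [min_eq_right h1, max_eq_right h0]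
  obtain ⟨S, hS⟩ : ∃ S, S = hmono.stieltjesFunction := ⟨_, rfl⟩
  have hSc : ∀ x, ContinuousAt U x → S x = U x := by
    intro x hx
    rw [hS, Monotone.stieltjesFunction_eq]
    exact hx.continuousWithinAt.rightLim_eq
  have hS0 : ∀ x, x < 0 → S x = p 0 := by
    intro x hx
    rw [hSc x, hU0 x hx.le]
    have h1 : U =ᶠ[𝓝 x] fun _ => p 0 := by
      filter_upwards [Iio_mem_nhds hx] with y hy
      exact hU0 y hy.le
    exact (continuousAt_const.congr h1.symm)
  have hS1 : ∀ x, 1 < x → S x = p 1 := by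
    intro x hx
    rw [hSc x, hU1 x hx.le]
    have h1 : U =ᶠ[𝓝 x] fun _ => p 1 := by
      filter_upwards [Ioi_mem_nhds hx] with y hy
      exact hU1 y hy.le
    exact (continuousAt_const.congr h1.symm)
  have hbot : Tendsto S atBot (𝓝 (p 0)) := by
    refine tendsto_const_nhds.congr' ?_
    filter_upwards [Iio_mem_atBot (0 : ℝ)] with x hx
    exact (hS0 x hx).symm
  have htop : Tendsto S atTop (𝓝 (p 1)) := by
    refine tendsto_const_nhds.congr' ?_
    filter_upwards [Ioi_mem_atTop (1 : ℝ)] with x hx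
    exact (hS1 x hx).symm
  have hfin : IsFiniteMeasure S.measure := S.isFiniteMeasure hbot htop
  have h01 : p 0 ≤ p 1 := hp ⟨le_rfl, zero_le_one⟩ ⟨zero_le_one, le_rfl⟩ zero_le_one
  have huniv : S.measure.real Set.univ = p 1 - p 0 := by
    unfold Measure.real
    rw [S.measure_univ hbot htop, ENNReal.toReal_ofReal (by linarith)]
  have hn0 : S.measure (Set.Iio 0) = 0 := by
    have h1 : Set.Iio (0 : ℝ) ⊆ ⋃ n : ℕ, Set.Iic (-(1 / ((n : ℝ) + 1))) := by
      intro x hx
      obtain ⟨n, hn⟩ := exists_nat_one_div_lt (neg_pos.2 (Set.mem_Iio.1 hx))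
      exact Set.mem_iUnion.2 ⟨n, Set.mem_Iic.2 (by linarith)⟩
    refine measure_mono_null h1 (measure_iUnion_null fun n => ?_)
    have hneg : -(1 / ((n : ℝ) + 1)) < 0 := by
      have : 0 < 1 / ((n : ℝ) + 1) := by positivity
      linarith
    rw [S.measure_Iic hbot, hS0 _ hneg, sub_self, ENNReal.ofReal_zero]
  have hn1 : S.measure (Set.Ioi 1) = 0 := by
    have h1 : Set.Ioi (1 : ℝ) ⊆ ⋃ n : ℕ, Set.Ioi (1 + 1 / ((n : ℝ) + 1)) := by
      intro x hx
      obtain ⟨n, hn⟩ := exists_nat_one_div_lt (sub_pos.2 (Set.mem_Ioi.1 hx))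
      exact Set.mem_iUnion.2 ⟨n, Set.mem_Ioi.2 (by linarith)⟩
    refine measure_mono_null h1 (measure_iUnion_null fun n => ?_)
    have hpos : (1 : ℝ) < 1 + 1 / ((n : ℝ) + 1) := by
      have : 0 < 1 / ((n : ℝ) + 1) := by positivity
      linarith
    rw [S.measure_Ioi htop, hS1 _ hpos, sub_self, ENNReal.ofReal_zero]
  have hae : ∀ᵐ t ∂S.measure, 0 ≤ t ∧ t ≤ 1 := by
    have e0 : ∀ᵐ t ∂S.measure, ¬ t ∈ Set.Iio (0 : ℝ) := measure_eq_zero_iff_ae_notMem.1 hn0
    have e1 : ∀ᵐ t ∂S.measure, ¬ t ∈ Set.Ioi (1 : ℝ) := measure_eq_zero_iff_ae_notMem.1 hn1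
    filter_upwards [e0, e1] with t h0 h1
    exact ⟨not_lt.1 h0, not_lt.1 h1⟩
  have hid : Integrable (fun t : ℝ => t) S.measure :=
    Integrable.of_bound measurable_id.aestronglyMeasurable 1 (by
      filter_upwards [hae] with t ht
      rw [Real.norm_eq_abs, abs_le]
      exact ⟨by linarith [ht.1], ht.2⟩)
  refine ⟨S.measure, ∫ t, t ∂S.measure, {x | ¬ ContinuousAt U x}, hfin,
    hmono.countable_not_continuousAt, ?_⟩
  intro x hx hx0 hx1
  have hcx : ContinuousAt U x := by
    by_contra h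
    exact hx h
  have hsw : Integrable (fun t : ℝ => sw (x - t)) S.measure :=
    Integrable.of_bound (sw_meas.comp (measurable_const.sub measurable_id)).aestronglyMeasurable
      (1 / 2) (Eventually.of_forall fun t => sw_bdd _)
  have h1 : ∫ t, (Set.Iic x).indicator (fun _ => (1 : ℝ)) t ∂S.measure = U x - p 0 := by
    rw [integral_indicator measurableSet_Iic, setIntegral_const, smul_eq_mul, mul_one]
    unfold Measure.real
    rw [S.measure_Iic hbot, hSc x hcx, ENNReal.toReal_ofReal]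
    have := hmono (min_le_left x 0)
    rw [hU0 _ (min_le_right x 0)] at this
    linarith
  have h2 : ∫ t, (Set.Iic x).indicator (fun _ => (1 : ℝ)) t ∂S.measure =
      ∫ t, (x + 1 / 2 - t - sw (x - t)) ∂S.measure := by
    refine integral_congr_ae ?_
    filter_upwards [hae] with t ht
    exact sw_eq hx0 hx1 ht.1 ht.2
  have h3 : ∫ t, (x + 1 / 2 - t - sw (x - t)) ∂S.measure =
      (x + 1 / 2) * (p 1 - p 0) - (∫ t, t ∂S.measure) - ∫ t, sw (x - t) ∂S.measure := by
    have a1 : Integrable (fun t : ℝ => x + 1 / 2 - t) S.measure := (integrable_const _).sub hid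
    rw [integral_sub a1 hsw, integral_sub (integrable_const _) hid, integral_const, smul_eq_mul,
      huniv]
    ring
  rw [h1, h3, hUx x hx0 hx1.le] at h2
  linarith

theorem t_REP : S_REP := by
  intro f hf h01
  obtain ⟨p, q, hp, hq, hpq⟩ := hf.locallyBoundedVariationOn.exists_monotoneOn_sub_monotoneOn
  obtain ⟨θ₁, m₁, N₁, i1, c1, r1⟩ := mono_rep p hp
  obtain ⟨θ₂, m₂, N₂, i2, c2, r2⟩ := mono_rep q hq
  refine ⟨θ₁, θ₂, p 0 - q 0 - m₁ + m₂, i1, i2, (c1.union c2).mono ?_⟩
  rintro x ⟨hx0, hx1, hne⟩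
  by_contra hx
  rw [Set.mem_union, not_or] at hx
  apply hne
  have e1 := r1 x hx.1 hx0 hx1
  have e2 := r2 x hx.2 hx0 hx1
  have e3 : p 1 - p 0 = q 1 - q 0 := by
    rw [hpq] at h01
    simp only [Pi.sub_apply] at h01
    linarith
  have e4 : f x = p x - q x := by rw [hpq]; rfl
  rw [e4, e1, e2, e3]
  ring

end Pool.Agent.U139.BV
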